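import Mathlib

set_option autoImplicit false

namespace Pool.Agent.Results.MP_b004e2_gt.Extra

open Set Sum

/-- The group of self-homeomorphisms of `M` that leave the function `f` invariant. -/
def G {M : Type} [TopologicalSpace M] (f : M → ℝ) : Subgroup (M ≃ₜ M) where
  carrier := {T | ∀ p, f (T p) = f p}
  mul_mem' := fun ha hb p => (ha _).trans (hb p)
  one_mem' := fun _ => rfl
  inv_mem' := fun {T} h p => by simpa using (h (T.symm p)).symm

lemma key {M : Type} [TopologicalSpace M] (f₀ : C(M, ℝ)) :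
    ∃ f : C(M ⊕ ℝ, ℝ), Nonempty (G f₀ ≃* G f) := by
  let f : C(M ⊕ ℝ, ℝ) := ⟨Sum.elim (fun p => -Real.exp (f₀ p)) Real.exp,
    Continuous.sumElim (by fun_prop) (by fun_prop)⟩
  let φ : G f₀ →* G f := MonoidHom.mk' (fun T => ⟨T.1.sumCongr (.refl ℝ), fun p => by
    rcases p with p | p
    · exact congrArg (fun t => -Real.exp t) (T.2 p)
    · rfl⟩) fun S T => by ext (p | p) <;> rfl
  refine ⟨f, ⟨.ofBijective φ ⟨fun S T h => ?_, fun T => ?_⟩⟩⟩
  · ext p
    exact inl_injective (congrArg (fun U : G f => U.1 (inl p)) h)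
  have h : ∀ T : G f, ∀ p, ∃ q, T.1 (inl p) = inl q := fun T p => by
    have := T.2 (inl p)
    rcases e : T.1 (inl p) with q | q
    · exact ⟨q, rfl⟩
    · simp only [e, f, ContinuousMap.coe_mk, elim_inl, elim_inr] at this
      linarith [Real.exp_pos q, Real.exp_pos (f₀ p)]
  choose g hg using h
  have c : ∀ T, Continuous (g T) := fun T => Topology.IsEmbedding.inl.continuous_iff.2 (by
    convert T.1.continuous.comp continuous_inl using 1
    exact funext fun p => (hg T p).symm)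
  have i : ∀ T p, g T⁻¹ (g T p) = p := fun T p => inl_injective (by
    rw [← hg, ← hg]
    exact T.1.symm_apply_apply _)
  refine ⟨⟨⟨⟨g T, g T⁻¹, i T, i T⁻¹⟩, c T, c T⁻¹⟩, fun p => ?_⟩, ?_⟩
  · have := T.2 (inl p)
    simpa [hg, f] using this
  · ext (p | p)
    · exact (hg T p).symm
    · have := T.2 (inr p)
      rcases e : T.1 (inr p) with q | q
      · simp only [e, f, ContinuousMap.coe_mk, elim_inl, elim_inr] at this
        linarith [Real.exp_pos p, Real.exp_pos (f₀ q)]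
      · simp only [e, f, ContinuousMap.coe_mk, elim_inr, Real.exp_eq_exp] at this
        exact this ▸ rfl

/-- For every connected space `M`, the space `M ⊕ ℝ` is not homeomorphic to `M` and realises all the
invariance groups of `M`; in particular for the one-dimensional manifolds `ℝ` and `ℝ ⊕ ℝ`. The same
happens for the connected manifolds `ℝ ^ 0` and `ℝ`. -/
theorem result :
    (∀ (M : Type) [TopologicalSpace M] [ConnectedSpace M], IsEmpty (M ≃ₜ M ⊕ ℝ) ∧
      ∀ f₀ : C(M, ℝ), ∃ f : C(M ⊕ ℝ, ℝ), Nonempty (G f₀ ≃* G f)) ∧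
    (∃ (M N : Type) (_ : TopologicalSpace M) (_ : TopologicalSpace N) (_ : T2Space M)
      (_ : T2Space N) (_ : SecondCountableTopology M) (_ : SecondCountableTopology N)
      (_ : ChartedSpace ℝ M) (_ : ChartedSpace ℝ N), IsEmpty (M ≃ₜ N) ∧
        ∀ f₀ : C(M, ℝ), ∃ f : C(N, ℝ), Nonempty (G f₀ ≃* G f)) ∧
    IsEmpty (EuclideanSpace ℝ (Fin 0) ≃ₜ ℝ) ∧
      ∀ f₀ : C(EuclideanSpace ℝ (Fin 0), ℝ), ∃ f : C(ℝ, ℝ), Nonempty (G f₀ ≃* G f) := by
  have h : ∀ (M : Type) [TopologicalSpace M] [ConnectedSpace M], IsEmpty (M ≃ₜ M ⊕ ℝ) :=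
    fun M _ _ => ⟨fun e => by
      have := e.surjective.connectedSpace e.continuous
      rcases isClopen_iff.1 (isClopen_range_inl (X := M) (Y := ℝ)) with h | h
      · exact (range_nonempty _).ne_empty h
      · simpa using h.symm.subset (mem_univ (inr 0))⟩
  refine ⟨fun M _ _ => ⟨h M, key⟩, ⟨ℝ, ℝ ⊕ ℝ, _, _, inferInstance, inferInstance, inferInstance,
    inferInstance, inferInstance, inferInstance, h ℝ, key⟩,
    ⟨fun e => zero_ne_one (e.symm.injective (Subsingleton.elim _ _))⟩, fun f₀ => ⟨.id ℝ, ?_⟩⟩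
  have : Unique (G f₀) := ⟨⟨1⟩, fun T => by ext1; ext1; exact Subsingleton.elim _ _⟩
  have : Unique (G (ContinuousMap.id ℝ)) := ⟨⟨1⟩, fun T => by ext p; exact T.2 p⟩
  exact ⟨MulEquiv.ofUnique⟩

end Pool.Agent.Results.MP_b004e2_gt.Extra
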